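import Pool.Agent.U365.POW.J
import Pool.Agent.U365.SH.A

/-!
# The polynomial bound for the Shimura maps of ALL curves of a family with parameter of height near `s(m)`, `m - φ(m)` or
# `α m + β f(m)`

Let `J = A / D` be a non-constant rational function over `ℚ`, of degree `d`, for example the invariant of an elliptic curve over
`ℚ(T)`. `HoldsAt K A D t` (starting result EveryOneParameterFamily): `J(t)` is finite, and for the newforms `f` of ALL elliptic
curves over `ℚ` of invariant `J(t)` (all twists) the coordinates of `H(γ)` are at most `ρ N ^ K` for all `γ ∈ Γ₀(N)` with lower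
left entry `|r| ≤ N ^ 2` (this is the bound of Q1, `ρ` is the Manin constant) and at most `ρ N ^ (K + 1) (1 + log |r|)` for all
`γ` with `r ≠ 0`.

Let `s(m)` be the sum of the proper divisors of `m`, `κ ≥ 0`, `ε > 0`, `ε + κ < 1/2` and `K = 11 / 2 + 4 (d + 1) / (3 ε)`. For
almost all `m` (for all `m ≤ N` but at most `N / (log N) ^ B`, for every `B`) `HoldsAt K A D t` holds for ALL rational numbers `t`
of height within `s(m) ^ κ` of `s(m)`, if `J` has at least two poles, and for ALL integers `x` with `||x| - s(m)| ≤ s(m) ^ κ` if
`D` is not constant. The same holds for `m - φ(m)` and for ALL `α m + β f(m)`, `|α|, |β| ≤ N ^ δ`, where `f` is multiplicative with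
`f p = p + c` at the primes. If only `ε + κ < 1`, this holds for a set of `m` of lower density at least `1 - ε - κ`.

Proof. The number of the exceptional parameters has a power saving (starting theorem). Let `m = k v p` with large primes `p ≠ v`.
Then `g = A v p + B (v + p) + B c`, `A = α k + β f(k)`, `B = β c f(k)`, and so `(A v + B) (A p + B) = A g + B² - A B c`: for given
`g`, `k`, `α`, `β` there are only `N^o(1)` possibilities for `p` and `v`. If the exponent is smaller than `1/2`, no divisor is
needed: here we use the divisors `D` of `m` without small prime factors: `α m` is congruent to `g` modulo `f(D)`; if the size of all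
such `D` is inconvenient, then `m = R D` where the prime factors of `D` are so large that `D` lies in a short interval which is
given by `R` and `g`.
-/

set_option autoImplicit false

namespace Pool.Agent.Results.MP_bde085_nt.AliquotValues

open Polynomial
open Pool.Agent.U365.POW (Law law_of law_mono)
open Pool.Agent.N733.TG (Expanding)
open Pool.Agent.U365.SH (exponent height rat_count int_count)
open Pool.Agent.Results.MP_bde085_nt.EveryOneParameterFamily (IsFunction poleCount HoldsAt)

/-- `HoldsAt K A D t` for ALL rational numbers `t` whose height `H(t)` satisfies `|H(t) - G g| ≤ g ^ κ`. -/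
def NearRationals (K : ℝ) (A D : ℤ[X]) (G : ℕ → ℝ) (κ : ℝ) (g : ℕ) : Prop :=
  ∀ t : ℚ, |(height t : ℝ) - G g| ≤ (g : ℝ) ^ κ → HoldsAt K A D t

/-- `HoldsAt K A D x` for ALL integers `x` with `||x| - G g| ≤ g ^ κ`. -/
def NearIntegers (K : ℝ) (A D : ℤ[X]) (G : ℕ → ℝ) (κ : ℝ) (g : ℕ) : Prop :=
  ∀ x : ℤ, |(x.natAbs : ℝ) - G g| ≤ (g : ℝ) ^ κ → HoldsAt K A D (x : ℚ)

/-- **Theorem.** Let `G` have steps `≥ c > 0` and growth at most `v ^ δ`, let `J = A / D` be a rational function of degree `d ≥ 1`,
`ε > 0`, `κ ≥ 0` and `e = δ ε + κ < 1`. If `J` has at least two poles, the property `NearRationals`, and if `D` is not constant, the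
property `NearIntegers`, both with the exponent `11 / 2 + 4 (d + 1) / (3 ε)`, hold for the values of similar functions as the
aliquot sum with the exponent `e` (`Law`): if `e < 1/2`, (1) for ALL `α m + β f(m)` at almost all `m`, and so for `s(m)` and
`m - φ(m)` for almost all `m`; in general, (2) at almost all the `m` with a divisor `≥ m ^ (e + ρ)` which is a prime or the product
of two different primes, and for `s(m)` and `m - φ(m)` for a set of `m` of lower density at least `1 - e`. -/
theorem result : ∀ (G : ℕ → ℝ) (δ : ℝ), Expanding G δ → ∀ (d : ℕ) (A D : ℤ[X]), IsFunction d A D →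
    ∀ ε κ : ℝ, 0 < ε → 0 ≤ κ → δ * ε + κ < 1 →
      (2 ≤ poleCount d D → Law (δ * ε + κ) (NearRationals (exponent d ε) A D G κ)) ∧
      (1 ≤ D.natDegree → Law (δ * ε + κ) (NearIntegers (exponent d ε) A D G κ)) := by
  intro G δ hG d A D hJ ε κ hε hκ h1
  refine ⟨fun h2 => ?_, fun h2 => ?_⟩
  · exact law_mono (law_of (fun _ : ℚ => True) (fun t => HoldsAt (exponent d ε) A D t) (fun t => (height t : ℝ)) hG
      hε.le hκ h1 (fun ε' hε' => rat_count hJ h2 hε hε')) (fun g hg t ht => hg t trivial ht)
  · exact law_mono (law_of (fun _ : ℤ => True) (fun x => HoldsAt (exponent d ε) A D (x : ℚ)) (fun x => (x.natAbs : ℝ)) hG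
      hε.le hκ h1 (fun ε' hε' => int_count hJ h2 hε hε')) (fun g hg t ht => hg t trivial ht)

end Pool.Agent.Results.MP_bde085_nt.AliquotValues
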