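import Pool.Agent.U569.APL.BigQ
import Pool.Agent.Results.MP_bde085_nt.ThinSequences

/-!
# The Shimura maps of the newforms of elliptic curves with parameters formed from arbitrary sets

Let `J = A / D` be a rational function over `ℚ` in `r` variables, for example the `j`-invariant of an elliptic curve over
`ℚ(t₁, …, t_r)`, whose reductions modulo the primes have many poles in the mean (`MeanPoles`); this is so for the universal
family `y² = x³ + t₁ x + t₂`. `Holds κ A D v` (starting file `ThinSequences`): the bounds of Q1 with the exponent `κ` hold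
for the newforms of all elliptic curves over `ℚ` (all quadratic twists) of invariant `J (v)`: the coordinates of `H(γ)` are
at most `ρ N_f ^ κ` for all `γ` in `Γ₀(N_f)` with lower left entry at most `N_f ^ 2`, and at most
`ρ N_f ^ (κ + 1) (1 + log |r|)` for all `γ` with lower left entry `r ≠ 0`; `N_f` is the level and `ρ` is the Manin
constant.

**Theorem.** For every `ε > 0`, `β > 0` and `B` there is an exponent `κ` such that for every sequence (`j = 0, 1, 2, …`) of
finite families of integral vectors of the following kind `Holds κ A D v` for all but the fraction `ε` of the members `v` of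
the `j`-th family, for large `j`. The members are `c₀ + y`, where `|c₀| ≤ q ^ B` and `y` is one of the following vectors
(represented by `0, …, q - 1`), `q → ∞`:

* `y` in any family of vectors modulo `q` whose nontrivial Fourier coefficients are at most
  `1 / (Z (42 + 3 log q) ^ r)`, `q ^ β ≤ Z ≤ q` (`PowerFlat`);
* (the last four with `q = P` prime, `0 < δ ≤ 1` and `β = δ / 8`) `b(x, z) + u(x) + w(z)`, where
  `b : k ^ m × k ^ n → k ^ r` is bilinear, the nontrivial combinations of its coordinates have rank at least `ρ`, `x`
  and `z` are in ARBITRARY sets `E` and `F` with `|E| |F| ≥ P ^ (m + n - ρ + δ)`, `u` and `w` are arbitrary functions;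
* the same for `b(x, z) = x z`, `x` and `z` in ARBITRARY subsets of the field of `P ^ r` elements,
  `|E| |F| ≥ P ^ (r + δ)`;
* polynomials in `k` variables of degree at most `P ^ (δ / 4)`, all nontrivial combinations of which have a monomial with
  at least two variables, plus arbitrary functions of the single variables, on products of `k` ARBITRARY sets of at
  least `P ^ (1 / 2 + δ)` residues; for example (`r = 2`, `k = 3`) all but `ε |S| ³` of the curves
  `y² = x³ + (a b mod P) x + (a b c mod P)`, `a, b, c ∈ S`;
* polynomials in one variable of degree at most `P ^ (δ / 4)`, no nontrivial combination of which is constant, on any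
  subgroup of the multiplicative group modulo `P` with at least `P ^ (1 / 2 + δ)` elements.

New: the families. Starting libraries: `N384.VF` (large prime divisors of the denominator at vectors of residues) and
`N628.BS.one`, `N365.SM` (one large prime in the denominator is enough for the bounds); the estimates of the Fourier
coefficients on arbitrary sets are in `U569/APL`.
-/

set_option autoImplicit false

namespace Pool.Agent.Results.MP_bde085_nt.ArbitrarySets

open MvPolynomial Filter
open Pool.Agent.Results.MP_bde085_nt.ThinSequences (Holds MeanPoles of_sh)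
open Pool.Agent.U569.APL

theorem result (r : ℕ) (A D : MvPolynomial (Fin r) ℤ) (hD : D ≠ 0) (hM : MeanPoles A D) (B : ℕ) :
    (∀ ε β : ℝ, 0 < ε → 0 < β → ∃ κ : ℝ,
      ∀ (τ : ℕ → Type) (s : ∀ j, Finset (τ j)) (v : ∀ j, τ j → Fin r → ℤ), PowerFlat β B s v →
        ∀ᶠ j in atTop, ({i : τ j | i ∈ s j ∧ ¬ Holds κ A D (v j i)}.ncard : ℝ) ≤ ε * (s j).card) ∧
    ExamplesP (Fin r) B := by
  refine ⟨fun ε β hε hβ => ?_, examplesP _ _⟩
  obtain ⟨θ, m, hθ, h⟩ := power_big hD hM ε β B hε hβ
  obtain ⟨n₀, h1⟩ := Pool.Agent.N628.BS.one hθ m
  refine ⟨11 / 2 + (m + 1) / (6 * θ), fun τ s v hs => ?_⟩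
  refine h n₀ τ s v hs _ fun n w hn hn1 hw hp hA hD' => of_sh ⟨hw, ?_⟩
  obtain ⟨p, hp1, -, hp2, hp3, hp4⟩ := hp
  exact h1 n hn hn1 _ _ hw ⟨p, hp1, hp2, hp3, hp4⟩ hA hD'

end Pool.Agent.Results.MP_bde085_nt.ArbitrarySets
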