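import Pool.Agent.U365.SH.A
import Pool.Agent.U536.CF.F
import Pool.Agent.U536.DS.F

/-!
# The polynomial bound for the Shimura maps of ALL curves of a family with parameter of height near large integers which have a
# large common factor with `f(m)`, or which are sums or differences of two divisors of `f(m)`

Let `J = A / D` be a non-constant rational function over `ℚ`, of degree `d`, for example the invariant of an elliptic curve over
`ℚ(T)`. `HoldsAt K A D t` (starting result EveryOneParameterFamily): `J(t)` is finite, and for the newforms `f` of ALL elliptic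
curves over `ℚ` of invariant `J(t)` (all twists) the coordinates of `H(γ)` are at most `ρ N ^ K` for all `γ ∈ Γ₀(N)` with lower
left entry `|r| ≤ N ^ 2` (this is the bound of Q1, `ρ` is the Manin constant) and at most `ρ N ^ (K + 1) (1 + log |r|)` for all
`γ` with `r ≠ 0`.

Let `f` be a positive multiplicative function of at most polynomial growth such that `f p ≤ M p` for the large primes `p`,
with different values at different large primes; for example Euler's function or the sum of the divisors. Let `ε > 0`, `κ ≥ 0`,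
`ε + κ < 1`, `K = 11 / 2 + 4 (d + 1) / (3 ε)`, `b < 1` and `0 ≤ c < 2 b - 1`. For all large `X` and all `m ≤ X` but at most
`2 X exp (-(log X)^c)` the following holds for EVERY integer `w ≥ exp ((log X)^b)` which is of the form `w = u s + v t` with
divisors `s`, `t` of `f(m)` and integers `|u|, |v| ≤ exp ((log X)^θ)`, `θ < b`, or for which `gcd(w, f(m)) ≥ w^ρ`,
`ε + κ < ρ ≤ 1`: `HoldsAt K A D t` for ALL rational numbers `t` of height within `w ^ κ` of `w`, if `J` has at least two poles,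
and for ALL integers `x` with `||x| - w| ≤ w ^ κ` if `D` is not constant. (More generally the heights are near `G(w)`.) The integers
`w` include all large divisors of `f(m)`, their small multiples, the large sums and differences of ANY two divisors of `f(m)`; for
Euler's function, the orders of the units modulo `m` and those sums and differences of two of them which are large.

Proof. Write `m = k u` with `u` squarefree and composed of primes larger than `X^(1/J)`, `J = (log X)^a`, and `k ≤ exp (4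
(log X)^a)`; this is possible for all `m ≤ X` but very few. The number of `u` with `v ∣ f(m)` is bounded by `X / v` times
the number `τ_J(v)` of the ordered factorizations of `v` into `J` factors; the inequality `τ_J^q ≤ τ_K` for `K ≥ J^q`
and Hölder's inequality bound the sum over the `v` which are common factors, or least common multiples of two divisors, with
exceptional `w` (engine `Pool.Agent.U536` of helper536). The number of the exceptional `t` is bounded by the starting result.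
The divisors of the `f(m)` and the pairs of divisors are far more numerous than the `m`.
-/

set_option autoImplicit false

namespace Pool.Agent.Results.MP_bde085_nt.DivisorSums

open Polynomial
open Pool.Agent.N733.TG (LM Expanding lm_totient lm_sigma expanding_pow)
open Pool.Agent.U536.CF (Common common_good common_of_dvd common_order)
open Pool.Agent.U536.DS (Comb comb_good comb_pm comb_orders)
open Pool.Agent.U365.SH (exponent height rat_count int_count)
open Pool.Agent.Results.MP_bde085_nt.EveryOneParameterFamily (IsFunction poleCount HoldsAt)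

/-- `w` has the form of the theorem: `w ≥ exp ((log N)^b)`, and `w = u s + v t` with divisors `s`, `t` of `f m` and integers `u`,
`v` with `|u|, |v| ≤ exp ((log N)^θ)` (`Comb`), or the greatest common divisor of `w` and `f m` is at least `w^ρ` (`Common`). -/
def Form (f : ℕ → ℕ) (b θ ρ : ℝ) (N m w : ℕ) : Prop := Comb f b θ N m w ∨ Common f b ρ N m w

/-- The number of the `m ≤ N` for which not ALL integers `w` of the form `Form` have the property `Q w` is at most
`2 N exp (-(log N)^c)` for all large `N`. -/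
def FewExceptions (f : ℕ → ℕ) (b c θ ρ : ℝ) (Q : ℕ → Prop) : Prop :=
  ∃ N₀ : ℕ, ∀ N : ℕ, N₀ ≤ N → ({m : ℕ | 1 ≤ m ∧ m ≤ N ∧ ¬ ∀ w : ℕ, Form f b θ ρ N m w → Q w}.ncard : ℝ) ≤
    2 * N * Real.exp (-(Real.log N ^ c))

theorem few_of {T : Type*} (Good : T → Prop) (h : T → ℝ) {f : ℕ → ℕ} (hf : LM f) {G : ℕ → ℝ} {d : ℝ}
    (hG : Expanding G d) {s κ θ ρ b c : ℝ} (hs : 0 ≤ s) (hκ : 0 ≤ κ) (h1 : d * s + κ < ρ) (hρ : ρ ≤ 1) (hθ : θ < b)
    (hb : b < 1) (hc0 : 0 ≤ c) (hcb : c < 2 * b - 1)
    (hS : ∀ ε : ℝ, 0 < ε → ∃ C : ℝ, ∀ X : ℝ, 1 ≤ X →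
      {t | (True ∧ ¬ Good t) ∧ h t ≤ X}.Finite ∧ ({t | (True ∧ ¬ Good t) ∧ h t ≤ X}.ncard : ℝ) ≤ C * X ^ (s + ε)) :
    FewExceptions f b c θ ρ (fun w => ∀ t, |h t - G w| ≤ (w : ℝ) ^ κ → Good t) := by
  obtain ⟨N₁, h₁⟩ := comb_good (fun _ => True) Good h hf hG hs hκ (by linarith) hθ hb hc0 hcb hS
  obtain ⟨N₂, h₂⟩ := common_good (fun _ => True) Good h hf hG hs hκ h1 hρ hb hc0 hcb hS
  refine ⟨max N₁ N₂, fun N hN => ?_⟩
  have e₁ := h₁ N ((le_max_left _ _).trans hN)
  have e₂ := h₂ N ((le_max_right _ _).trans hN)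
  have hfin : ∀ P : ℕ → Prop, {m : ℕ | 1 ≤ m ∧ m ≤ N ∧ P m}.Finite := by
    intro P
    apply (Set.finite_Icc 1 N).subset
    intro m hm
    exact ⟨hm.1, hm.2.1⟩
  have hsub : {m : ℕ | 1 ≤ m ∧ m ≤ N ∧ ¬ ∀ w : ℕ, Form f b θ ρ N m w → ∀ t, |h t - G w| ≤ (w : ℝ) ^ κ → Good t} ⊆
      {m : ℕ | 1 ≤ m ∧ m ≤ N ∧ ¬ ∀ w : ℕ, Comb f b θ N m w → ∀ t, True → |h t - G w| ≤ (w : ℝ) ^ κ → Good t} ∪
      {m : ℕ | 1 ≤ m ∧ m ≤ N ∧ ¬ ∀ w : ℕ, Common f b ρ N m w → ∀ t, True → |h t - G w| ≤ (w : ℝ) ^ κ → Good t} := by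
    rintro m ⟨a1, a2, a3⟩
    push Not at a3
    obtain ⟨w, hw, t, ht, hbad⟩ := a3
    rcases hw with hw | hw
    · left
      exact ⟨a1, a2, fun h => hbad (h w hw t trivial ht)⟩
    · right
      exact ⟨a1, a2, fun h => hbad (h w hw t trivial ht)⟩
  have h3 := Set.ncard_le_ncard hsub ((hfin _).union (hfin _))
  have h4 := h3.trans (Set.ncard_union_le _ _)
  calc ({m : ℕ | 1 ≤ m ∧ m ≤ N ∧ ¬ ∀ w : ℕ, Form f b θ ρ N m w → ∀ t, |h t - G w| ≤ (w : ℝ) ^ κ → Good t}.ncard : ℝ)
      ≤ ({m : ℕ | 1 ≤ m ∧ m ≤ N ∧ ¬ ∀ w : ℕ, Comb f b θ N m w → ∀ t, True → |h t - G w| ≤ (w : ℝ) ^ κ → Good t}.ncard : ℝ) +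
        ({m : ℕ | 1 ≤ m ∧ m ≤ N ∧ ¬ ∀ w : ℕ, Common f b ρ N m w → ∀ t, True → |h t - G w| ≤ (w : ℝ) ^ κ →
          Good t}.ncard : ℝ) := by exact_mod_cast h4
    _ ≤ N * Real.exp (-(Real.log N ^ c)) + N * Real.exp (-(Real.log N ^ c)) := add_le_add e₁ e₂
    _ = 2 * N * Real.exp (-(Real.log N ^ c)) := by ring

/-- **Theorem.** Let `f` be multiplicative and positive, of at most polynomial growth, with `f p ≤ M p` at the large primes, and
injective there. Let `G` have steps `≥ a > 0` and growth at most `v^δ`, let `J = A / D` be a rational function of degree `d ≥ 1`,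
`ε > 0`, `κ ≥ 0` and `δ ε + κ < ρ ≤ 1`, `θ < b < 1` and `0 ≤ c < 2 b - 1`. For all large `N` and all `m ≤ N` but
`2 N exp (-(log N)^c)` the following holds for EVERY integer `w` of the form `Form`: if `J` has at least two poles, `HoldsAt` with the
exponent `11 / 2 + 4 (d + 1) / (3 ε)` for ALL rational numbers `t` whose height `H(t)` satisfies `|H(t) - G w| ≤ w^κ`; if `D` is not
constant, the same for ALL integers `x` with `||x| - G w| ≤ w^κ`. Euler's function and the sum of the divisors are examples of `f`,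
and `α v^δ` with `α > 0`, `δ ≥ 1` is an example of `G`. All divisors `w ≥ exp ((log N)^b)` of `f(m)`, all sums and differences
`≥ exp ((log N)^b)` of two divisors of `f(m)`, and for Euler's function those of the orders of two units modulo `m`, are of the form
`Form`. -/
theorem result :
    (∀ f : ℕ → ℕ, LM f → ∀ (G : ℕ → ℝ) (δ : ℝ), Expanding G δ → ∀ (d : ℕ) (A D : ℤ[X]), IsFunction d A D →
      ∀ ε κ θ ρ b c : ℝ, 0 < ε → 0 ≤ κ → δ * ε + κ < ρ → ρ ≤ 1 → θ < b → b < 1 → 0 ≤ c → c < 2 * b - 1 →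
        (2 ≤ poleCount d D → FewExceptions f b c θ ρ (fun w =>
          ∀ t : ℚ, |(height t : ℝ) - G w| ≤ (w : ℝ) ^ κ → HoldsAt (exponent d ε) A D t)) ∧
        (1 ≤ D.natDegree → FewExceptions f b c θ ρ (fun w =>
          ∀ x : ℤ, |(x.natAbs : ℝ) - G w| ≤ (w : ℝ) ^ κ → HoldsAt (exponent d ε) A D (x : ℚ)))) ∧
    (LM Nat.totient ∧ LM (fun m => ∑ d ∈ m.divisors, d)) ∧
    (∀ α δ : ℝ, 0 < α → 1 ≤ δ → Expanding (fun v => α * (v : ℝ) ^ δ) δ) ∧
    (∀ (f : ℕ → ℕ) (b θ ρ : ℝ) (N m s t : ℕ), s ∣ f m → t ∣ f m →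
      (Real.exp (Real.log N ^ b) ≤ ((s + t : ℕ) : ℝ) → Form f b θ ρ N m (s + t)) ∧
      (Real.exp (Real.log N ^ b) ≤ ((s - t : ℕ) : ℝ) → Form f b θ ρ N m (s - t)) ∧
      (Real.exp (Real.log N ^ b) ≤ (s : ℝ) → Form f b θ ρ N m s)) ∧
    ∀ (b θ ρ : ℝ) (N m : ℕ) (x y : (ZMod m)ˣ), ρ ≤ 1 →
      (Real.exp (Real.log N ^ b) ≤ ((orderOf x + orderOf y : ℕ) : ℝ) → Form Nat.totient b θ ρ N m (orderOf x + orderOf y)) ∧
      (Real.exp (Real.log N ^ b) ≤ ((orderOf x - orderOf y : ℕ) : ℝ) → Form Nat.totient b θ ρ N m (orderOf x - orderOf y)) ∧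
      (Real.exp (Real.log N ^ b) ≤ (orderOf x : ℝ) → Form Nat.totient b θ ρ N m (orderOf x)) := by
  refine ⟨?_, ⟨lm_totient, lm_sigma⟩, fun α d hα hd => expanding_pow hα hd,
    fun f b θ ρ N m s t hs ht => ⟨fun h => Or.inl ((comb_pm hs ht).1 h), fun h => Or.inl ((comb_pm hs ht).2.1 h),
      fun h => Or.inl ((comb_pm hs ht).2.2 h)⟩,
    fun b θ ρ N m x y hρ => ⟨fun h => Or.inl ((comb_orders x y).1 h), fun h => Or.inl ((comb_orders x y).2 h),
      fun h => Or.inr (common_order hρ x h)⟩⟩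
  intro f hf G δ hG d A D hJ ε κ θ ρ b c hε hκ h1 hρ hθ hb hc0 hcb
  exact ⟨fun h2 => few_of (fun t => HoldsAt (exponent d ε) A D t) (fun t => (height t : ℝ)) hf hG hε.le hκ h1 hρ hθ hb hc0 hcb
      (fun ε' hε' => rat_count hJ h2 hε hε'),
    fun h2 => few_of (fun x : ℤ => HoldsAt (exponent d ε) A D (x : ℚ)) (fun x : ℤ => (x.natAbs : ℝ)) hf hG hε.le hκ h1 hρ hθ hb
      hc0 hcb (fun ε' hε' => int_count hJ h2 hε hε')⟩

end Pool.Agent.Results.MP_bde085_nt.DivisorSums
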